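import Pool.Agent.H44.KR.Targets

/-!
# Values for one graded structure
-/

set_option autoImplicit false

namespace Pool.Agent.H20.KR

open Pool.Agent.H68.BP Pool.Agent.H58.SF Pool.Agent.H53.NR Pool.Agent.H53.GM Pool.Agent.H44.KR
open Pool.Agent.H57.LCI (LocalCompletions Pre Realizes)
open Pool.Agent.H57.AR (tp ty)
open Pool.Agent.H57.EQ (Cx)
open Function
open Classical

/-- Places at one position of one branch in pairwise adjacent regions lie in one sheet. -/
theorem sheet_of_at {L : ℕ} (hL : 1 ≤ L) (r : Fin 3) (c : Fin 6) {ι : Type} (p : ι → Pl L)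
    (hA : ∀ i, At r c (p i)) (hJ : ∀ i j, Adj (reg (p i)) (reg (p j))) :
    ∃ Z : Sh, ∀ i, inSh Z (p i) := by
  by_cases h : ∃ i, reg (p i) = some none
  · obtain ⟨i₀, h₀⟩ := h
    refine ⟨Sum.inr (lr r c), fun i => ?_⟩
    have hAi := hA i
    have hJi := (hJ i₀ i).1
    rw [h₀] at hJi
    generalize p i = q at hAi hJi ⊢
    match q, hAi, hJi with
    | Sum.inl c', _, hj =>
      have h1 : L + 1 ≤ 0 + 1 := hj
      omega
    | Sum.inr (Sum.inl q), ha, _ => exact ha.2.symm
    | Sum.inr (Sum.inr d), ha, _ => exact Eq.symm ha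
  · refine ⟨Sum.inl c, fun i => ?_⟩
    have hAi := hA i
    have hn : ¬ reg (p i) = some none := fun hh => h ⟨i, hh⟩
    generalize p i = q at hAi hn ⊢
    match q, hAi, hn with
    | Sum.inl c', ha, _ => exact ha
    | Sum.inr (Sum.inl q), ha, _ =>
      have h1 : q.2.1 = r := ha.1
      have h2 : lr r c = q.2.2 := ha.2
      show lr q.2.1 c = q.2.2
      rw [h1]
      exact h2
    | Sum.inr (Sum.inr d), _, hj => exact absurd rfl hj

/-- Unfoldings can be composed with homomorphisms of graded structures. -/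
theorem unf_comp {V X X' : Type} {ρ : Sig} {L : ℕ} (hL : 1 ≤ L) {𝔹 : Str ρ V} {C : GS ρ L X}
    {C' : GS ρ L X'} (hC : Good 𝔹 C) {φ : X → X'} (hφ : GHm C C' φ) {u' : Fin 6 → X' → V}
    (hu : Unf 𝔹 C' u') : Unf 𝔹 C (fun c x => u' c (φ x)) := by
  refine ⟨fun x c c' hx => hu.top (φ x) c c' (by rw [hφ.pl]; exact hx), ?_⟩
  intro g hg r c
  have hR := hu.rz _ (hφ.gd g hg) r c
  have hm : ∀ x, x ∈ {x | x ∈ g ∧ At r c (C.pl x)} →
      φ x ∈ {x | x ∈ g.image φ ∧ At r c (C'.pl x)} := by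
    intro x hx
    refine ⟨Finset.mem_image_of_mem _ hx.1, ?_⟩
    rw [hφ.pl]
    exact hx.2
  refine ⟨?_, ?_⟩
  · intro x hx y hy h
    have h1 : φ x = φ y := hR.1 (φ x) (hm x hx) (φ y) (hm y hy) h
    exact hφ.inj g hg x hx.1 y hy.1 h1
  · intro l z hz
    have h1 := hR.2 l (fun i => φ (z i)) (fun i => hm _ (hz i))
    have h2 := hφ.st g hg l z (fun i => (hz i).1)
      (sheet_of_at hL r c (fun i => C.pl (z i)) (fun i => (hz i).2)
        (fun i j => hC.adj g hg _ (hz i).1 _ (hz j).1))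
    exact h1.trans h2

/-- the map on the sixth power, for finite sets with at most `n` elements -/
theorem pwg_fin {V Y : Type} {σ : Sig} (𝔸 : Str σ V) (n : ℕ) (K : (Fin 2 → V) → Y)
    (h : (Fin 6 → Fin 2 → V) → Y)
    (hh : ∀ (𝕎 : Str σ (Fin (n + 1))) (u : Fin 6 → Fin (n + 1) → V), (∀ c, IsHom 𝕎 𝔸 (u c)) →
      ∃ x : Fin (n + 1) → V, IsHom 𝕎 𝔸 x ∧
        ∀ α : Fin 2 → Fin (n + 1), K (fun v => x (α v)) = h (fun c v => u c (α v)))
    (W : Type) [Finite W] (G : Fin 6 → W → V) (hW : Nat.card W ≤ n) :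
    ∃ ψ : W → V, Cx 𝔸 G ψ ∧
      ∀ w w', K (fun v => ψ (if v = 0 then w else w')) =
        h (fun c v => G c (if v = 0 then w else w')) := by
  rcases isEmpty_or_nonempty W with hE | hN
  · refine ⟨fun w => isEmptyElim w, ?_, fun w => isEmptyElim w⟩
    intro l z hz
    have e : (fun a => (fun w : W => (isEmptyElim w : V)) (z a)) = fun a => G 0 (z a) :=
      funext fun a => isEmptyElim (z a)
    rw [e]
    exact hz 0
  · have hle : Nat.card W ≤ n + 1 := by omega
    obtain ⟨i, hi⟩ : ∃ i : W → Fin (n + 1), Injective i :=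
      ⟨fun w => Fin.castLE hle (Finite.equivFin W w),
        fun a b hab => (Finite.equivFin W).injective (Fin.castLE_injective hle hab)⟩
    have hp : ∀ w, invFun i (i w) = w := leftInverse_invFun hi
    obtain ⟨x, hx, hK⟩ := hh (fun l z => ∀ c, 𝔸 l (fun a => G c (invFun i (z a))))
      (fun c β => G c (invFun i β)) (fun c l z hz => hz c)
    refine ⟨fun w => x (i w), ?_, ?_⟩
    · intro l z hz
      refine hx l (fun a => i (z a)) (fun c => ?_)
      have e : (fun a => G c (invFun i (i (z a)))) = fun a => G c (z a) :=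
        funext fun a => by rw [hp]
      show 𝔸 l (fun a => G c (invFun i (i (z a))))
      rw [e]
      exact hz c
    · intro w w'
      have h1 := hK (fun v => i (if v = 0 then w else w'))
      have e : (fun (c : Fin 6) (v : Fin 2) => G c (invFun i (i (if v = 0 then w else w')))) =
          fun c v => G c (if v = 0 then w else w') :=
        funext fun c => funext fun v => by rw [hp]
      rw [← e]
      exact h1

theorem pf_CAN (hPWG : Pool.Agent.H53.GM.T_PWG) : T_CAN := by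
  intro V σ ρ 𝔸 𝔹 L hne hct hO hK3 hL hRm hU X _ _ C rk n hC hSg hrk
  have hYf : Finite (Yc ρ) := inferInstance
  obtain ⟨h, hh, hpat⟩ := hPWG σ V 𝔸 hct hne hO hK3 (Fin (n + 1)) 2 (by norm_num) (Yc ρ)
    (fun a => col2 𝔹 (a 0) (a 1))
  obtain ⟨X', hX', C', hC', hR⟩ := hRm X JJ (Yc ρ) C rk hC hSg hrk
  obtain ⟨u', hu'⟩ := hU X' C' hC'
  obtain ⟨φ, hφ, hmo⟩ := hR
    (fun a => h (fun c v => u' c (if v = 0 then a (Sum.inl c) else a (Sum.inr c))))
  obtain ⟨Φ, hΦ⟩ : ∃ Φ : Pool.Agent.H44.KR.Kd ρ L JJ → Yc ρ, ∀ a : JJ → X, C.tup a →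
      Φ (kd C.pl C.st rk a) =
        h (fun c v => u' c (if v = 0 then φ (a (Sum.inl c)) else φ (a (Sum.inr c)))) := by
    refine ⟨fun K => if hK : ∃ a : JJ → X, C.tup a ∧ kd C.pl C.st rk a = K then
      h (fun c v => u' c (if v = 0 then φ (choose hK (Sum.inl c)) else φ (choose hK (Sum.inr c))))
      else (True, fun _ => True, fun _ => True), ?_⟩
    intro a ha
    have hK : ∃ a' : JJ → X, C.tup a' ∧ kd C.pl C.st rk a' = kd C.pl C.st rk a := ⟨a, ha, rfl⟩
    show (if hK : ∃ a' : JJ → X, C.tup a' ∧ kd C.pl C.st rk a' = kd C.pl C.st rk a then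
      h (fun c v => u' c (if v = 0 then φ (choose hK (Sum.inl c)) else φ (choose hK (Sum.inr c))))
      else (True, fun _ => True, fun _ => True)) = _
    rw [dif_pos hK]
    exact hmo _ a (choose_spec hK).1 ha (choose_spec hK).2
  refine ⟨Φ, ⟨⟨fun c x => u' c (φ x), unf_comp hL hC hφ hu', ?_⟩, ?_⟩⟩
  · intro W _ b hW
    obtain ⟨ψ, hψ, hv⟩ := pwg_fin 𝔸 n (fun a => col2 𝔹 (a 0) (a 1)) h hh W
      (fun c w => u' c (φ (b w c))) hW
    refine ⟨ψ, hψ, fun w w' ht => ?_⟩
    rw [hΦ _ ht]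
    have h1 : col2 𝔹 (ψ w) (ψ w') =
      h (fun c v => u' c (φ (b (if v = 0 then w else w') c))) := hv w w'
    rw [h1]
    refine congrArg h (funext fun c => funext fun v => ?_)
    by_cases hv0 : v = 0
    · simp only [hv0, if_true, Sum.elim_inl]
    · simp only [hv0, if_false, Sum.elim_inr]
  · intro r x hg hpl
    have key : ∀ r : Fin 3,
        Φ (kd C.pl C.st rk (Sum.elim (fun c => x 0 (lr r c)) (fun c => x 1 (lr r c)))) =
          h (pat r (fun v => u' 0 (φ (x v 0))) (fun v => u' 0 (φ (x v 1)))) := by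
      intro r
      obtain ⟨g, hg1, hg2⟩ := hg
      have ht : C.tup (Sum.elim (fun c : Fin 6 => x 0 (lr r c)) (fun c : Fin 6 => x 1 (lr r c))) :=
        ⟨g, hg1, fun j => by
          rcases j with j | j
          · exact hg2 _ _
          · exact hg2 _ _⟩
      rw [hΦ _ ht]
      refine congrArg h (funext fun c => funext fun v => ?_)
      have e1 : pat r (fun v => u' 0 (φ (x v 0))) (fun v => u' 0 (φ (x v 1))) c =
          fun v => u' 0 (φ (x v (lr r c))) :=
        (pat_map (fun d : Fin 2 => fun v : Fin 2 => u' 0 (φ (x v d))) r 0 1 c).symm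
      rw [e1]
      have e2 : ∀ v d, u' c (φ (x v d)) = u' 0 (φ (x v d)) := fun v d =>
        hu'.top (φ (x v d)) c 0 (by rw [hφ.pl, hpl]; rfl)
      show u' c (if v = 0 then φ (x 0 (lr r c)) else φ (x 1 (lr r c))) = u' 0 (φ (x v (lr r c)))
      rw [← e2]
      refine congrArg (u' c) ?_
      by_cases hv0 : v = 0
      · rw [if_pos hv0, hv0]
      · rw [if_neg hv0]
        have hv1 : v = 1 := by omega
        rw [hv1]
    rw [key r, key 0, hpat r]

end Pool.Agent.H20.KR
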